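import Pool.Agent.H83R2.Nest.Core

/-!
# The generic operator
-/

set_option autoImplicit false

namespace Pool.Agent.H83R2.Nest

open scoped InnerProductSpace
open Polynomial

variable {H : Type*} [NormedAddCommGroup H] [InnerProductSpace ℂ H]

theorem exists_enum {C : Type*} [LinearOrder C] (s : Finset C) (hs : s.Nonempty) :
    ∃ (e : ℕ → C) (n : ℕ), Monotone e ∧ (∀ i, i < n → e i < e (i + 1)) ∧
      ∀ x ∈ s, ∃ i ≤ n, e i = x := by
  have hk : 0 < s.card := hs.card_pos
  let f : Fin s.card ↪o C := s.orderEmbOfFin rfl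
  refine ⟨fun i => f ⟨min i (s.card - 1), by omega⟩, s.card - 1, ?_, ?_, ?_⟩
  · intro i j hij
    apply f.monotone
    rw [Fin.mk_le_mk]
    omega
  · intro i hi
    apply f.strictMono
    rw [Fin.mk_lt_mk]
    omega
  · intro x hx
    have : x ∈ Set.range f := by
      rw [Finset.range_orderEmbOfFin]
      exact hx
    obtain ⟨i, rfl⟩ := this
    refine ⟨i.1, by omega, ?_⟩
    show f _ = f _
    congr 1
    ext
    simp only
    omega

theorem opM_add (v : ℕ → H) (d : ℕ) (A B : ℕ → ℕ → ℂ) :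
    opM v d (fun i j => A i j + B i j) = opM v d A + opM v d B := by
  simp [opM, add_smul, Finset.sum_add_distrib]

theorem opM_smul (v : ℕ → H) (d : ℕ) (t : ℂ) (A : ℕ → ℕ → ℂ) :
    opM v d (fun i j => t * A i j) = t • opM v d A := by
  simp [opM, Finset.smul_sum, smul_smul]

/-- The operators with strictly upper triangular matrix. -/
def Mat (v : ℕ → H) (d : ℕ) : Submodule ℂ (H →L[ℂ] H) where
  carrier := {T | ∃ A : ℕ → ℕ → ℂ, (∀ i j, ¬ i < j → A i j = 0) ∧ opM v d A = T}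
  add_mem' := by
    rintro _ _ ⟨A, hA, rfl⟩ ⟨B, hB, rfl⟩
    exact ⟨fun i j => A i j + B i j, fun i j h => by simp [hA i j h, hB i j h], opM_add _ _ _ _⟩
  zero_mem' := ⟨fun _ _ => 0, fun _ _ _ => rfl, by simp [opM]⟩
  smul_mem' := by
    rintro t _ ⟨A, hA, rfl⟩
    exact ⟨fun i j => t * A i j, fun i j h => by simp [hA i j h], opM_smul _ _ _ _⟩

theorem rk_mem_Mat (v : ℕ → H) (d i j : ℕ) (hij : i < j) (hj : j < d) :
    rk (v i) (v j) ∈ Mat v d := by
  refine ⟨fun i' j' => if i' = i ∧ j' = j then 1 else 0, ?_, ?_⟩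
  · intro i' j' h
    show (if i' = i ∧ j' = j then (1 : ℂ) else 0) = 0
    rw [if_neg]
    rintro ⟨rfl, rfl⟩
    exact h hij
  · ext f
    rw [opM_apply, rk_apply, Finset.sum_eq_single i]
    · rw [Finset.sum_eq_single j]
      · simp
      · intro j' _ hj'
        simp [hj']
      · intro h
        exact absurd (Finset.mem_range.2 hj) h
    · intro i' _ hi'
      simp [hi']
    · intro h
      exact absurd (Finset.mem_range.2 (hij.trans hj)) h

theorem rk_sum (s t : Finset ℕ) (v : ℕ → H) :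
    rk (∑ i ∈ s, v i) (∑ j ∈ t, v j) = ∑ i ∈ s, ∑ j ∈ t, rk (v i) (v j) := by
  ext f
  simp only [rk_apply, sum_inner, ContinuousLinearMap.sum_apply, Finset.sum_smul,
    Finset.smul_sum]

theorem sum_Ico_sub' (x : ℕ → H) (i j : ℕ) (hij : i ≤ j) :
    ∑ k ∈ Finset.Ico i j, (x (k + 1) - x k) = x j - x i := by
  induction j, hij using Nat.le_induction with
  | base => simp
  | succ n hn ih =>
    rw [Finset.sum_Ico_succ_top hn, ih]
    abel

section gens

variable {C : Type*} [LinearOrder C]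

/-- The generating rank one operators. -/
def gens (φ : C → H) : Set (H →L[ℂ] H) :=
  {T | ∃ a b c d, a < b ∧ b ≤ c ∧ c < d ∧ T = rk (φ b - φ a) (φ d - φ c)}

/-- The generating rank one operators with parameters in `s`. -/
def gensOn (φ : C → H) (s : Finset C) : Set (H →L[ℂ] H) :=
  {T | ∃ a ∈ s, ∃ b ∈ s, ∃ c ∈ s, ∃ d ∈ s, a < b ∧ b ≤ c ∧ c < d ∧
    T = rk (φ b - φ a) (φ d - φ c)}

theorem gensOn_mono (φ : C → H) {s t : Finset C} (h : s ⊆ t) : gensOn φ s ⊆ gensOn φ t := by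
  rintro _ ⟨a, ha, b, hb, c, hc, d, hd, hab, hbc, hcd, rfl⟩
  exact ⟨a, h ha, b, h hb, c, h hc, d, h hd, hab, hbc, hcd, rfl⟩

theorem exists_finset [DecidableEq C] (φ : C → H) (T : H →L[ℂ] H)
    (hT : T ∈ Submodule.span ℂ (gens φ)) :
    ∃ s : Finset C, T ∈ Submodule.span ℂ (gensOn φ s) := by
  induction hT using Submodule.span_induction with
  | mem x hx =>
    obtain ⟨a, b, c, d, hab, hbc, hcd, rfl⟩ := hx
    refine ⟨{a, b, c, d}, Submodule.subset_span ⟨a, by simp, b, by simp, c, by simp, d, by simp,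
      hab, hbc, hcd, rfl⟩⟩
  | zero => exact ⟨∅, Submodule.zero_mem _⟩
  | add x y _ _ hx hy =>
    obtain ⟨s, hs⟩ := hx
    obtain ⟨t, ht⟩ := hy
    exact ⟨s ∪ t, Submodule.add_mem _
      (Submodule.span_mono (gensOn_mono φ Finset.subset_union_left) hs)
      (Submodule.span_mono (gensOn_mono φ Finset.subset_union_right) ht)⟩
  | smul c x _ hx =>
    obtain ⟨s, hs⟩ := hx
    exact ⟨s, Submodule.smul_mem _ _ hs⟩

theorem step (φ : C → H)
    (horth : ∀ a b c d, a ≤ b → b ≤ c → c ≤ d → ⟪φ b - φ a, φ d - φ c⟫_ℂ = 0)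
    (hne : ∀ a b, a < b → φ a ≠ φ b) (T0 : H →L[ℂ] H) (hT0 : T0 ∈ Submodule.span ℂ (gens φ))
    (a b c d : C) (hab : a < b) (hbc : b ≤ c) (hcd : c < d) (M : ℕ) (r : ℝ) (hr : 0 < r) :
    ∃ T1 ∈ Submodule.span ℂ (gens φ), ‖T1 - T0‖ < r ∧ T1 ∈ Gd (φ d - φ c) (φ b - φ a) M := by
  classical
  obtain ⟨s0, hs0⟩ := exists_finset φ T0 hT0
  set s : Finset C := s0 ∪ {a, b, c, d} with hs
  have hT0s : T0 ∈ Submodule.span ℂ (gensOn φ s) :=
    Submodule.span_mono (gensOn_mono φ Finset.subset_union_left) hs0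
  have ha : a ∈ s := by simp [hs]
  have hb : b ∈ s := by simp [hs]
  have hc : c ∈ s := by simp [hs]
  have hd : d ∈ s := by simp [hs]
  obtain ⟨e, n, hmono, hstrict, hsurj⟩ := exists_enum s ⟨a, ha⟩
  set v : ℕ → H := fun i => φ (e (i + 1)) - φ (e i) with hv
  have hlt : ∀ i j, i < j → i < n → e i < e j := fun i j hij hi =>
    (hstrict i hi).trans_le (hmono hij)
  have hle : ∀ i j, i ≤ n → j ≤ n → e i ≤ e j → i ≤ j := by
    intro i j _ hj h
    by_contra hcon
    push Not at hcon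
    exact absurd h (not_le.2 (hlt j i hcon (by omega)))
  have hltle : ∀ i j, i ≤ n → j ≤ n → e i < e j → i < j := by
    intro i j _ _ h
    by_contra hcon
    push Not at hcon
    exact absurd h (not_lt.2 (hmono hcon))
  have hvo : ∀ i j, i ≠ j → ⟪v i, v j⟫_ℂ = 0 := by
    intro i j hij
    rcases lt_or_gt_of_ne hij with h | h
    · exact horth _ _ _ _ (hmono (by omega)) (hmono (by omega)) (hmono (by omega))
    · rw [inner_eq_zero_symm]
      exact horth _ _ _ _ (hmono (by omega)) (hmono (by omega)) (hmono (by omega))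
  have hv0 : ∀ i, i < n → v i ≠ 0 := by
    intro i hi
    exact sub_ne_zero.2 (hne _ _ (hstrict i hi)).symm
  have htel : ∀ i j, i ≤ j → φ (e j) - φ (e i) = ∑ k ∈ Finset.Ico i j, v k := by
    intro i j hij
    exact (sum_Ico_sub' (fun k => φ (e k)) i j hij).symm
  -- `T0` has a strictly upper triangular matrix
  have hMat : Submodule.span ℂ (gensOn φ s) ≤ Mat v n := by
    rw [Submodule.span_le]
    rintro _ ⟨a', ha', b', hb', c', hc', d', hd', hab', hbc', hcd', rfl⟩
    obtain ⟨ia, hia, rfl⟩ := hsurj a' ha'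
    obtain ⟨ib, hib, rfl⟩ := hsurj b' hb'
    obtain ⟨ic, hic, rfl⟩ := hsurj c' hc'
    obtain ⟨id, hid, rfl⟩ := hsurj d' hd'
    have h1 := hltle _ _ hia hib hab'
    have h2 := hle _ _ hib hic hbc'
    have h3 := hltle _ _ hic hid hcd'
    rw [htel ia ib h1.le, htel ic id h3.le, rk_sum]
    refine Submodule.sum_mem _ fun i hi => Submodule.sum_mem _ fun j hj => ?_
    rw [Finset.mem_Ico] at hi hj
    exact rk_mem_Mat v n i j (by omega) (by omega)
  obtain ⟨A, hA, hAT⟩ := hMat hT0s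
  -- the perturbation
  set Z : ℕ → ℕ → ℂ := fun i j => if j = i + 1 then 1 else 0 with hZ
  obtain ⟨t, ht1, ht2⟩ : ∃ t : ℂ, ‖t‖ < r / (‖opM v n Z‖ + 1) ∧
      ∀ i, i < n → A i (i + 1) + t ≠ 0 := by
    have hcount : (((Finset.range n).image fun i => -A i (i + 1) : Finset ℂ) : Set ℂ).Countable :=
      Finset.countable_toSet _
    have hdense := hcount.dense_compl ℂ
    obtain ⟨t, ht, ht'⟩ := (Metric.dense_iff.1 hdense 0 (r / (‖opM v n Z‖ + 1)) (by positivity))
    refine ⟨t, by simpa using ht, ?_⟩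
    intro i hi h
    refine ht' ?_
    rw [Finset.mem_coe, Finset.mem_image]
    exact ⟨i, Finset.mem_range.2 hi, by linear_combination -h⟩
  have hT1 : opM v n (fun i j => A i j + t * Z i j) = T0 + t • opM v n Z := by
    rw [opM_add, opM_smul, hAT]
  refine ⟨opM v n (fun i j => A i j + t * Z i j), ?_, ?_, ?_⟩
  · rw [hT1]
    refine Submodule.add_mem _ hT0 (Submodule.smul_mem _ _ ?_)
    refine Submodule.sum_mem _ fun i hi => Submodule.sum_mem _ fun j hj => ?_
    rw [Finset.mem_range] at hi hj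
    by_cases h : j = i + 1
    · subst h
      simp only [hZ, if_true, one_smul]
      exact Submodule.subset_span ⟨e i, e (i + 1), e (i + 1), e (i + 1 + 1), hstrict i hi, le_rfl,
        hstrict _ hj, rfl⟩
    · simp only [hZ, if_neg h, zero_smul]
      exact Submodule.zero_mem _
  · rw [hT1, add_sub_cancel_left, norm_smul]
    have h1 : (0 : ℝ) < ‖opM v n Z‖ + 1 := by positivity
    rw [lt_div_iff₀ h1] at ht1
    have h2 : ‖t‖ * ‖opM v n Z‖ ≤ ‖t‖ * (‖opM v n Z‖ + 1) :=
      mul_le_mul_of_nonneg_left (by linarith) (norm_nonneg _)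
    linarith
  · obtain ⟨ia, hia, ha2⟩ := hsurj a ha
    obtain ⟨ib, hib, hb2⟩ := hsurj b hb
    obtain ⟨ic, hic, hc2⟩ := hsurj c hc
    obtain ⟨id, hid, hd2⟩ := hsurj d hd
    have h1 := hltle ia ib hia hib (by rw [ha2, hb2]; exact hab)
    have h2 := hle ib ic hib hic (by rw [hb2, hc2]; exact hbc)
    have h3 := hltle ic id hic hid (by rw [hc2, hd2]; exact hcd)
    refine mem_Gd v hvo n hv0 _ ?_ ?_ _ _ ib ic id h3.le hid ?_ h2 ?_ M
    · intro i j hij
      simp only [hA i j hij, hZ]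
      rw [if_neg (by omega)]
      simp
    · intro i hi
      simp only [hZ, if_true, mul_one]
      exact ht2 i (by omega)
    · rw [← htel ic id h3.le, hc2, hd2]
    · rw [← ha2, ← hb2, htel ia ib h1.le]
      refine Submodule.sum_mem _ fun i hi => Submodule.subset_span ?_
      rw [Finset.mem_Ico] at hi
      exact ⟨i, hi.2, rfl⟩

/-- The generic operator. -/
theorem core [CompleteSpace H] [Countable C] (φ : C → H)
    (horth : ∀ a b c d, a ≤ b → b ≤ c → c ≤ d → ⟪φ b - φ a, φ d - φ c⟫_ℂ = 0)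
    (hne : ∀ a b, a < b → φ a ≠ φ b) :
    ∃ T : H →L[ℂ] H,
      (∀ N : Submodule ℂ H, IsClosed (N : Set H) →
        (∀ a b c d, a < b → b ≤ c → c < d →
          (φ b - φ a ∈ N ∨ ∀ f ∈ N, ⟪φ d - φ c, f⟫_ℂ = 0)) → ∀ f ∈ N, T f ∈ N) ∧
      (∀ W : Submodule ℂ H, IsClosed (W : Set H) → (∀ f ∈ W, T f ∈ W) → ∀ f ∈ W,
        ∀ a b c d, a < b → b ≤ c → c < d → ⟪φ d - φ c, f⟫_ℂ ≠ 0 → φ b - φ a ∈ W) := by
  classical
  set S : Submodule ℂ (H →L[ℂ] H) := Submodule.span ℂ (gens φ) with hS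
  let X : Type _ := ↥S.topologicalClosure
  haveI : CompleteSpace X := S.isClosed_topologicalClosure.completeSpace_coe
  let ι : Type _ := {q : C × C × C × C // q.1 < q.2.1 ∧ q.2.1 ≤ q.2.2.1 ∧ q.2.2.1 < q.2.2.2} × ℕ
  let O : ι → Set X := fun q =>
    {T : X | (T : H →L[ℂ] H) ∈ Gd (φ q.1.1.2.2.2 - φ q.1.1.2.2.1) (φ q.1.1.2.1 - φ q.1.1.1) q.2}
  have hopen : ∀ q, IsOpen (O q) := fun q => (isOpen_Gd _ _ _).preimage continuous_subtype_val
  have hdense : ∀ q, Dense (O q) := by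
    rintro ⟨⟨⟨a, b, c, d⟩, hab, hbc, hcd⟩, M⟩
    rw [Metric.dense_iff]
    intro T r hr
    have hT : (T : H →L[ℂ] H) ∈ closure (S : Set (H →L[ℂ] H)) := T.2
    obtain ⟨T0, hT0, hd0⟩ := Metric.mem_closure_iff.1 hT (r / 2) (by positivity)
    obtain ⟨T1, hT1, hd1, hG⟩ := step φ horth hne T0 hT0 a b c d hab hbc hcd M (r / 2)
      (by positivity)
    refine ⟨⟨T1, S.le_topologicalClosure hT1⟩, ?_, hG⟩
    rw [Metric.mem_ball]
    show dist T1 (T : H →L[ℂ] H) < r
    calc dist T1 (T : H →L[ℂ] H) ≤ dist T1 T0 + dist T0 (T : H →L[ℂ] H) := dist_triangle _ _ _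
      _ < r / 2 + r / 2 := by
          refine add_lt_add ?_ ?_
          · rw [dist_eq_norm]
            exact hd1
          · rw [dist_comm]
            exact hd0
      _ = r := by ring
  have hD := dense_iInter_of_isOpen hopen hdense
  obtain ⟨T, hT⟩ := hD.nonempty
  rw [Set.mem_iInter] at hT
  refine ⟨(T : H →L[ℂ] H), ?_, ?_⟩
  · intro N hN hq f hf
    let E : Submodule ℂ (H →L[ℂ] H) :=
      { carrier := {T | ∀ f ∈ N, T f ∈ N}
        add_mem' := fun {x y} hx hy f hf => N.add_mem (hx f hf) (hy f hf)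
        zero_mem' := fun f _ => N.zero_mem
        smul_mem' := fun c x hx f hf => N.smul_mem c (hx f hf) }
    have hE : IsClosed (E : Set (H →L[ℂ] H)) := by
      have : (E : Set (H →L[ℂ] H)) = ⋂ f ∈ N, {T : H →L[ℂ] H | T f ∈ (N : Set H)} := by
        ext T
        simp only [Set.mem_iInter]
        rfl
      rw [this]
      refine isClosed_biInter fun f _ => ?_
      exact hN.preimage (ContinuousLinearMap.apply ℂ H f).continuous
    have hSE : S ≤ E := by
      rw [hS, Submodule.span_le]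
      rintro _ ⟨a, b, c, d, hab, hbc, hcd, rfl⟩ f hf
      show rk (φ b - φ a) (φ d - φ c) f ∈ N
      rw [rk_apply]
      rcases hq a b c d hab hbc hcd with h | h
      · exact N.smul_mem _ h
      · rw [h f hf, zero_smul]
        exact N.zero_mem
    have h1 : S.topologicalClosure ≤ E := S.topologicalClosure_minimal hSE hE
    exact h1 T.2 f hf
  · intro W hW hTW f hf a b c d hab hbc hcd hne0
    have hpoly : ∀ p : ℂ[X], aeval (T : H →L[ℂ] H) p f ∈ W := by
      intro p
      have hpow : ∀ n : ℕ, ((T : H →L[ℂ] H) ^ n) f ∈ W := by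
        intro n
        induction n with
        | zero => simpa using hf
        | succ n ih =>
          rw [pow_succ']
          exact hTW _ ih
      rw [aeval_eq_sum_range]
      have h1 : (∑ i ∈ Finset.range (p.natDegree + 1), p.coeff i • (T : H →L[ℂ] H) ^ i) f =
          ∑ i ∈ Finset.range (p.natDegree + 1), p.coeff i • ((T : H →L[ℂ] H) ^ i) f := by
        simp
      rw [h1]
      exact Submodule.sum_mem _ fun i _ => W.smul_mem _ (hpow i)
    have hcl : φ b - φ a ∈ closure (W : Set H) := by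
      rw [Metric.mem_closure_iff]
      intro ε hε
      have hpos : 0 < ‖⟪φ d - φ c, f⟫_ℂ‖ := norm_pos_iff.2 hne0
      obtain ⟨M, hM⟩ := exists_nat_gt (max ‖f‖ (max (1 / ‖⟪φ d - φ c, f⟫_ℂ‖) (1 / ε)))
      have h1 : ‖f‖ < M := (le_max_left _ _).trans_lt hM
      have h2 : 1 / ‖⟪φ d - φ c, f⟫_ℂ‖ < M :=
        ((le_max_left _ _).trans (le_max_right _ _)).trans_lt hM
      have h3 : 1 / ε < M := ((le_max_right _ _).trans (le_max_right _ _)).trans_lt hM
      have hM0 : (0 : ℝ) < M := (norm_nonneg f).trans_lt h1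
      obtain ⟨P, δ, hδ, _, hP⟩ := hT ⟨⟨(a, b, c, d), hab, hbc, hcd⟩, M⟩
      obtain ⟨p, _, hp2⟩ := hP f (by linarith) (by
        rw [div_le_iff₀ (by positivity)]
        rw [div_lt_iff₀ hpos] at h2
        nlinarith)
      refine ⟨aeval (T : H →L[ℂ] H) p f, hpoly p, ?_⟩
      rw [dist_comm, dist_eq_norm]
      have h4 : 1 / ((M : ℝ) + 1) < ε := by
        rw [div_lt_iff₀ (by positivity)]
        rw [div_lt_iff₀ hε] at h3
        nlinarith
      have h5 : ‖aeval (T : H →L[ℂ] H) p f - (φ b - φ a)‖ + δ ≤ 1 / ((M : ℝ) + 1) := hp2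
      linarith
    rwa [hW.closure_eq] at hcl

end gens

end Pool.Agent.H83R2.Nest
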