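import Pool.Agent.H83R2.Nest.Baire

/-!
# Every compact set of real numbers is the lattice of an operator
-/

set_option autoImplicit false

namespace Pool.Agent.H83R2.Nest

open scoped InnerProductSpace

variable {H : Type*} [NormedAddCommGroup H] [InnerProductSpace ℂ H]

/-- `φ` is a function on `F` with orthogonal increments, `‖φ t - φ s‖² = |t - s|` and `φ m = 0` at
the least point `m` of `F`. -/
structure Ker (F : Set ℝ) (m : F) (φ : F → H) : Prop where
  least : ∀ t : F, m ≤ t
  inner : ∀ s t : F, ⟪φ s, φ t⟫_ℂ = ((min (s : ℝ) t - m : ℝ) : ℂ)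
  dense : (Submodule.span ℂ (Set.range φ)).topologicalClosure = ⊤

variable {F : Set ℝ} {m : F} {φ : F → H}

theorem Ker.inner_sub (h : Ker F m φ) (a b c d : F) :
    ⟪φ b - φ a, φ d - φ c⟫_ℂ =
      ((min (b : ℝ) d - min (b : ℝ) c - min (a : ℝ) d + min (a : ℝ) c : ℝ) : ℂ) := by
  rw [inner_sub_left, inner_sub_right, inner_sub_right, h.inner, h.inner, h.inner, h.inner]
  push_cast
  ring

theorem Ker.orth (h : Ker F m φ) (a b c d : F) (hab : a ≤ b) (hbc : b ≤ c) (hcd : c ≤ d) :
    ⟪φ b - φ a, φ d - φ c⟫_ℂ = 0 := by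
  have h1 : (a : ℝ) ≤ b := hab
  have h2 : (b : ℝ) ≤ c := hbc
  have h3 : (c : ℝ) ≤ d := hcd
  rw [h.inner_sub, min_eq_left (h2.trans h3), min_eq_left h2, min_eq_left (h1.trans (h2.trans h3)),
    min_eq_left (h1.trans h2)]
  simp

theorem Ker.norm_sq (h : Ker F m φ) (a b : F) : ‖φ b - φ a‖ ^ 2 = |(b : ℝ) - a| := by
  have h1 : ((‖φ b - φ a‖ ^ 2 : ℝ) : ℂ) = ((|(b : ℝ) - a| : ℝ) : ℂ) := by
    have h2 := inner_self_eq_norm_sq_to_K (𝕜 := ℂ) (φ b - φ a)
    rw [h.inner_sub] at h2
    push_cast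
    rw [show ((‖φ b - φ a‖ : ℂ)) ^ 2 = ((‖φ b - φ a‖ : ℝ) : ℂ) ^ 2 from rfl]
    have h3 : ((‖φ b - φ a‖ : ℝ) : ℂ) ^ 2 =
        ((min (b : ℝ) b - min (b : ℝ) a - min (a : ℝ) b + min (a : ℝ) a : ℝ) : ℂ) := by
      rw [h2]
      rfl
    rw [h3]
    congr 1
    rcases le_total (a : ℝ) b with hab | hab
    · rw [min_eq_right hab, min_eq_left hab, abs_of_nonneg (by linarith)]
      simp
    · rw [min_eq_left hab, min_eq_right hab, abs_of_nonpos (by linarith)]
      simp only [min_self]
      ring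
  exact_mod_cast h1

theorem Ker.ne (h : Ker F m φ) (a b : F) (hab : a < b) : φ a ≠ φ b := by
  intro hab'
  have h1 := h.norm_sq a b
  rw [hab', sub_self, norm_zero] at h1
  have h2 : (a : ℝ) < b := hab
  rw [abs_of_pos (by linarith)] at h1
  norm_num at h1
  linarith

theorem Ker.zero (h : Ker F m φ) : φ m = 0 := by
  have h1 := h.inner m m
  simp only [min_self, sub_self, Complex.ofReal_zero] at h1
  exact inner_self_eq_zero.1 h1

theorem Ker.continuous (h : Ker F m φ) : Continuous φ := by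
  rw [Metric.continuous_iff]
  intro b ε hε
  refine ⟨ε ^ 2, by positivity, fun a hab => ?_⟩
  rw [dist_eq_norm]
  have h1 := h.norm_sq b a
  have h2 : |(a : ℝ) - b| < ε ^ 2 := hab
  rw [← h1] at h2
  exact lt_of_pow_lt_pow_left₀ 2 hε.le h2

/-- The nest. -/
def NN (φ : F → H) (t : F) : Submodule ℂ H :=
  (Submodule.span ℂ {x | ∃ s : F, s ≤ t ∧ φ s = x}).topologicalClosure

theorem NN_closed (t : F) : IsClosed (NN φ t : Set H) := Submodule.isClosed_topologicalClosure _

theorem mem_NN {s t : F} (hst : s ≤ t) : φ s ∈ NN φ t :=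
  Submodule.le_topologicalClosure _ (Submodule.subset_span ⟨s, hst, rfl⟩)

theorem NN_le {t : F} {W : Submodule ℂ H} (hW : IsClosed (W : Set H)) (h : ∀ s ≤ t, φ s ∈ W) :
    NN φ t ≤ W := by
  refine Submodule.topologicalClosure_minimal _ ?_ hW
  rw [Submodule.span_le]
  rintro _ ⟨s, hs, rfl⟩
  exact h s hs

theorem Ker.inner_NN (h : Ker F m φ) {t c d : F} (htc : t ≤ c) (hcd : c ≤ d) {f : H}
    (hf : f ∈ NN φ t) : ⟪φ d - φ c, f⟫_ℂ = 0 := by
  have h1 : NN φ t ≤ (ℂ ∙ (φ d - φ c))ᗮ := by
    refine NN_le (Submodule.isClosed_orthogonal _) fun s hs => ?_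
    rw [Submodule.mem_orthogonal_singleton_iff_inner_right]
    have h2 := h.orth m s c d (h.least s) (hs.trans htc) hcd
    rw [h.zero, sub_zero] at h2
    rw [inner_eq_zero_symm]
    exact h2
  exact Submodule.mem_orthogonal_singleton_iff_inner_right.1 (h1 hf)

theorem Ker.mem_of_inner [CompleteSpace H] (h : Ker F m φ) (t : F) (f : H)
    (hf : ∀ d, t ≤ d → ⟪φ d - φ t, f⟫_ℂ = 0) : f ∈ NN φ t := by
  haveI : CompleteSpace (NN φ t) := (NN_closed t).completeSpace_coe
  set P : H := (NN φ t).starProjection f with hP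
  have hPm : P ∈ NN φ t := Submodule.starProjection_apply_mem _ _
  have hg : f - P ∈ (NN φ t)ᗮ := Submodule.sub_starProjection_mem_orthogonal f
  have h1 : ∀ s, φ s ∈ (ℂ ∙ (f - P))ᗮ := by
    intro s
    rw [Submodule.mem_orthogonal_singleton_iff_inner_left]
    rcases le_total s t with hs | hs
    · exact (Submodule.mem_orthogonal _ _).1 hg _ (mem_NN hs)
    · have h2 : ⟪φ t, f - P⟫_ℂ = 0 := (Submodule.mem_orthogonal _ _).1 hg _ (mem_NN le_rfl)
      have h3 : ⟪φ s - φ t, f - P⟫_ℂ = 0 := by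
        rw [inner_sub_right, hf s hs, h.inner_NN le_rfl hs hPm, sub_zero]
      have h4 : φ s = (φ s - φ t) + φ t := by abel
      rw [h4, inner_add_left, h3, h2, add_zero]
  have h5 : (Submodule.span ℂ (Set.range φ)).topologicalClosure ≤ (ℂ ∙ (f - P))ᗮ := by
    refine Submodule.topologicalClosure_minimal _ ?_ (Submodule.isClosed_orthogonal _)
    rw [Submodule.span_le]
    rintro _ ⟨s, rfl⟩
    exact h1 s
  rw [h.dense] at h5
  have h6 := h5 (Submodule.mem_top (x := f - P))
  rw [Submodule.mem_orthogonal_singleton_iff_inner_left, inner_self_eq_zero, sub_eq_zero] at h6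
  rw [h6]
  exact hPm

theorem Ker.NN_lt (h : Ker F m φ) {s t : F} (hst : s < t) : NN φ s < NN φ t := by
  refine lt_of_le_of_ne (NN_le (NN_closed t) fun r hr => mem_NN (hr.trans hst.le)) ?_
  intro heq
  have h1 : φ t ∈ NN φ s := by
    rw [heq]
    exact mem_NN le_rfl
  have h2 := h.inner_NN le_rfl hst.le h1
  have h3 := h.orth m s s t (h.least s) le_rfl hst.le
  rw [h.zero, sub_zero, inner_eq_zero_symm] at h3
  have h4 : ⟪φ t - φ s, φ t - φ s⟫_ℂ = 0 := by
    rw [inner_sub_right, h2, h3, sub_zero]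
  rw [inner_self_eq_zero, sub_eq_zero] at h4
  exact h.ne s t hst h4.symm

theorem Ker.exists_operator [CompleteSpace H] (hF : IsCompact F) (h : Ker F m φ) :
    ∃ T : H →L[ℂ] H,
      Nonempty (↥F ≃o {M : Submodule ℂ H // IsClosed (M : Set H) ∧ ∀ x ∈ M, T x ∈ M}) := by
  classical
  haveI : CompactSpace F := isCompact_iff_compactSpace.1 hF
  obtain ⟨C0, hC0, hC0d⟩ := TopologicalSpace.exists_countable_dense F
  set C : Set F := insert m C0 with hC
  have hCc : C.Countable := hC0.insert m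
  have hCd : Dense C := hC0d.mono (Set.subset_insert _ _)
  haveI : Countable C := hCc.to_subtype
  obtain ⟨T, hT1, hT2⟩ := core (fun c : C => φ c)
    (fun a b c d hab hbc hcd => h.orth a b c d hab hbc hcd) (fun a b hab => h.ne a b hab)
  have hmC : m ∈ C := Set.mem_insert _ _
  -- the members of the nest are invariant
  have hinv : ∀ t : F, ∀ x ∈ NN φ t, T x ∈ NN φ t := by
    intro t
    refine hT1 (NN φ t) (NN_closed t) ?_
    intro a b c d hab hbc hcd
    rcases le_or_gt (b : F) t with hb | hb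
    · left
      exact Submodule.sub_mem _ (mem_NN hb) (mem_NN ((show (a : F) ≤ b from hab.le).trans hb))
    · right
      intro f hf
      exact h.inner_NN (hb.le.trans hbc) (show (c : F) ≤ d from hcd.le) hf
  let f : F → {M : Submodule ℂ H // IsClosed (M : Set H) ∧ ∀ x ∈ M, T x ∈ M} := fun t =>
    ⟨NN φ t, NN_closed t, hinv t⟩
  have hmono : StrictMono f := fun s t hst => h.NN_lt hst
  have hsurj : Function.Surjective f := by
    rintro ⟨W, hW, hTW⟩
    have hcont := h.continuous
    have hpre : IsClosed (φ ⁻¹' (W : Set H)) := hW.preimage hcont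
    -- the key lemma
    have hkey : ∀ x ∈ W, ∀ c d : F, c < d → ⟪φ d - φ c, x⟫_ℂ ≠ 0 → ∀ s, s ≤ c → φ s ∈ W := by
      intro x hx c d hcd hne s hs
      have hK1 : ∀ b c' d' : F, b ∈ C → c' ∈ C → d' ∈ C → b ≤ c' → c' < d' →
          ⟪φ d' - φ c', x⟫_ℂ ≠ 0 → φ b ∈ W := by
        intro b c' d' hb hc' hd' hbc hcd' hne'
        rcases eq_or_lt_of_le (h.least b) with h1 | h1
        · rw [← h1, h.zero]
          exact W.zero_mem
        · have h2 := hT2 W hW hTW x hx ⟨m, hmC⟩ ⟨b, hb⟩ ⟨c', hc'⟩ ⟨d', hd'⟩ h1 hbc hcd' hne'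
          simpa [h.zero] using h2
      have hopen : IsOpen {p : F × F | p.1 < p.2 ∧ ⟪φ p.2 - φ p.1, x⟫_ℂ ≠ 0} := by
        refine IsOpen.inter (isOpen_lt (continuous_subtype_val.comp continuous_fst)
          (continuous_subtype_val.comp continuous_snd)) ?_
        refine isOpen_ne_fun ?_ continuous_const
        exact Continuous.inner ((hcont.comp continuous_snd).sub (hcont.comp continuous_fst))
          continuous_const
      have hmem : s ∈ closure (φ ⁻¹' (W : Set H)) := by
        rw [mem_closure_iff]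
        intro U hU hsU
        rcases eq_or_lt_of_le hs with h1 | h1
        · subst h1
          obtain ⟨p, hp1, hp2⟩ := (hCd.prod hCd).inter_open_nonempty
            ({p : F × F | p.1 < p.2 ∧ ⟪φ p.2 - φ p.1, x⟫_ℂ ≠ 0} ∩ (Prod.fst ⁻¹' U))
            (hopen.inter (hU.preimage continuous_fst)) ⟨(s, d), ⟨hcd, hne⟩, hsU⟩
          exact ⟨p.1, hp1.2, hK1 p.1 p.1 p.2 hp2.1 hp2.1 hp2.2 le_rfl hp1.1.1 hp1.1.2⟩
        · obtain ⟨p, hp1, hp2⟩ := (hCd.prod hCd).inter_open_nonempty
            ({p : F × F | p.1 < p.2 ∧ ⟪φ p.2 - φ p.1, x⟫_ℂ ≠ 0} ∩ (Prod.fst ⁻¹' Set.Ioi s))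
            (hopen.inter (isOpen_Ioi.preimage continuous_fst)) ⟨(c, d), ⟨hcd, hne⟩, h1⟩
          obtain ⟨b, hb1, hb2⟩ := hCd.inter_open_nonempty (U ∩ Set.Iio p.1)
            (hU.inter isOpen_Iio) ⟨s, hsU, hp1.2⟩
          exact ⟨b, hb1.1, hK1 b p.1 p.2 hb2 hp2.1 hp2.2 (le_of_lt hb1.2) hp1.1.1 hp1.1.2⟩
      rw [hpre.closure_eq] at hmem
      exact hmem
    -- the largest `t` with `NN t ≤ W`
    set B : Set F := {t | ∀ s ≤ t, φ s ∈ W} with hB
    have hBcl : IsClosed B := by
      rw [← closure_subset_iff_isClosed]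
      intro t ht s hs
      rcases eq_or_lt_of_le hs with h1 | h1
      · subst h1
        have hBs : B ⊆ φ ⁻¹' (W : Set H) := fun t' ht' => ht' t' le_rfl
        have h2 : s ∈ closure (φ ⁻¹' (W : Set H)) := closure_mono hBs ht
        rw [hpre.closure_eq] at h2
        exact h2
      · rw [mem_closure_iff] at ht
        obtain ⟨t', ht'1, ht'2⟩ := ht (Set.Ioi s) isOpen_Ioi h1
        exact ht'2 s (le_of_lt ht'1)
    have hBne : B.Nonempty := by
      refine ⟨m, fun s hs => ?_⟩
      rw [le_antisymm hs (h.least s), h.zero]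
      exact W.zero_mem
    obtain ⟨t0, ht0, ht0max⟩ := hBcl.isCompact.exists_isGreatest hBne
    refine ⟨t0, Subtype.ext (le_antisymm (NN_le hW ht0) ?_)⟩
    intro x hx
    -- increments beyond `t0` are orthogonal to `W`
    have hbey : ∀ y ∈ W, ∀ c d : F, t0 < c → c ≤ d → ⟪φ d - φ c, y⟫_ℂ = 0 := by
      intro y hy c d hc hcd
      by_contra hne
      rcases eq_or_lt_of_le hcd with h1 | h1
      · rw [h1, sub_self, inner_zero_left] at hne
        exact hne rfl
      · have h2 : c ∈ B := fun s hs => hkey y hy c d h1 hne s hs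
        exact absurd (ht0max h2) (not_le.2 hc)
    refine h.mem_of_inner t0 x fun d hd => ?_
    by_contra hne
    have hd' : t0 < d := by
      rcases eq_or_lt_of_le hd with h1 | h1
      · rw [h1, sub_self, inner_zero_left] at hne
        exact absurd rfl hne
      · exact h1
    by_cases hacc : t0 ∈ closure (Set.Ioi t0)
    · -- right limit point
      have hopen : IsOpen ({c : F | ⟪φ d - φ c, x⟫_ℂ ≠ 0} ∩ Set.Iio d) := by
        refine IsOpen.inter ?_ isOpen_Iio
        exact isOpen_ne_fun (Continuous.inner (continuous_const.sub hcont) continuous_const)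
          continuous_const
      rw [mem_closure_iff] at hacc
      obtain ⟨c, hc1, hc2⟩ := hacc _ hopen ⟨hne, hd'⟩
      exact hc1.1 (hbey x hx c d hc2 (le_of_lt hc1.2))
    · -- gap
      have hcl : IsClosed (Set.Ioi t0) := by
        rw [← closure_subset_iff_isClosed]
        intro c hc
        have h1 : c ∈ closure (Set.Ici t0) := closure_mono Set.Ioi_subset_Ici_self hc
        rw [isClosed_Ici.closure_eq] at h1
        rcases eq_or_lt_of_le (show t0 ≤ c from h1) with h2 | h2
        · subst h2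
          exact absurd hc hacc
        · exact h2
      obtain ⟨t1, ht1, ht1min⟩ := hcl.isCompact.exists_isLeast ⟨d, hd'⟩
      have ht1' : t0 < t1 := ht1
      set u : H := φ t1 - φ t0 with hu
      have hu0 : ⟪u, u⟫_ℂ ≠ 0 := inner_self_ne_zero.2 (sub_ne_zero.2 (h.ne _ _ ht1').symm)
      set lam : ℂ := ⟪u, x⟫_ℂ / ⟪u, u⟫_ℂ with hlam
      have hg : x - lam • u ∈ NN φ t0 := by
        refine h.mem_of_inner t0 _ fun e he => ?_
        rcases eq_or_lt_of_le he with h1 | h1
        · rw [← h1, sub_self, inner_zero_left]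
        · have h2 : t1 ≤ e := ht1min h1
          have h3 : φ e - φ t0 = (φ e - φ t1) + u := by rw [hu]; abel
          have h4 : ⟪φ e - φ t1, x - lam • u⟫_ℂ = 0 := by
            rw [inner_sub_right, hbey x hx t1 e ht1' h2, inner_smul_right]
            have h5 := h.orth t0 t1 t1 e ht1'.le le_rfl h2
            rw [inner_eq_zero_symm] at h5
            rw [h5]
            simp
          have h6 : ⟪u, x - lam • u⟫_ℂ = 0 := by
            rw [inner_sub_right, inner_smul_right, hlam, div_mul_cancel₀ _ hu0, sub_self]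
          rw [h3, inner_add_left, h4, h6, add_zero]
      have hgW : x - lam • u ∈ W := NN_le hW ht0 hg
      have hlu : lam • u ∈ W := by
        have := Submodule.sub_mem W hx hgW
        simpa using this
      have hlam0 : lam ≠ 0 := by
        intro h0
        rw [h0, zero_smul, sub_zero] at hg
        exact hne (h.inner_NN le_rfl hd hg)
      have huW : u ∈ W := (Submodule.smul_mem_iff W hlam0).1 hlu
      have ht1B : t1 ∈ B := by
        intro s hs
        rcases le_or_gt s t0 with h1 | h1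
        · exact ht0 s h1
        · have h2 : s = t1 := le_antisymm hs (ht1min h1)
          rw [h2]
          have h3 : φ t1 = u + φ t0 := by rw [hu]; abel
          rw [h3]
          exact W.add_mem huW (ht0 t0 le_rfl)
      exact absurd (ht0max ht1B) (not_le.2 ht1')
  exact ⟨T, ⟨hmono.orderIsoOfSurjective f hsurj⟩⟩

end Pool.Agent.H83R2.Nest
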