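import Pool.Agent.H83R2.Nest.Jordan

/-!
# Operators generated by a strictly increasing function with orthogonal increments

Let `φ : C → H` be a function with orthogonal increments on a countable linear order. There is an
operator `T`, a norm limit of combinations of `(φ b - φ a) ⊗ (φ d - φ c)` with `a < b ≤ c < d`, such
that every `f` with `⟪φ d - φ c, f⟫ ≠ 0` generates `φ b - φ a` for all `a < b ≤ c < d`.
-/

set_option autoImplicit false

namespace Pool.Agent.H83R2.Nest

open scoped InnerProductSpace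
open Polynomial

variable {H : Type*} [NormedAddCommGroup H] [InnerProductSpace ℂ H]

/-- The operators for which finitely many polynomials bring all `f` with `‖f‖ ≤ M + 1` and
`1 / (M + 1) ≤ ‖⟪u, f⟫‖` close to `g`. -/
def Gd (u g : H) (M : ℕ) : Set (H →L[ℂ] H) :=
  {T | ∃ P : Finset ℂ[X], ∃ δ : ℝ, 0 < δ ∧ (∀ p ∈ P, p.coeff 0 = 0) ∧
    ∀ f : H, ‖f‖ ≤ (M : ℝ) + 1 → 1 / ((M : ℝ) + 1) ≤ ‖⟪u, f⟫_ℂ‖ →
      ∃ p ∈ P, ‖aeval T p f - g‖ + δ ≤ 1 / ((M : ℝ) + 1)}

theorem isOpen_Gd (u g : H) (M : ℕ) : IsOpen (Gd u g M) := by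
  rw [isOpen_iff_mem_nhds]
  rintro T ⟨P, δ, hδ, hP, hT⟩
  have hM : (0 : ℝ) < (M : ℝ) + 1 := by positivity
  have h1 : ∀ p ∈ P, ∀ᶠ T' in nhds T, ‖aeval T' p - aeval T p‖ < δ / (2 * ((M : ℝ) + 1)) := by
    intro p _
    have hc : Continuous fun T' : H →L[ℂ] H => ‖aeval T' p - aeval T p‖ :=
      ((Polynomial.continuous_aeval p).sub continuous_const).norm
    have := hc.continuousAt (x := T)
    refine this.eventually_lt_const ?_
    simp only [sub_self, norm_zero]
    positivity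
  have h2 := (Filter.eventually_all_finset P).2 h1
  filter_upwards [h2] with T' hT'
  refine ⟨P, δ / 2, by positivity, hP, fun f hf hf' => ?_⟩
  obtain ⟨p, hp, h3⟩ := hT f hf hf'
  refine ⟨p, hp, ?_⟩
  have h4 : ‖(aeval T' p - aeval T p) f‖ ≤ δ / 2 := by
    refine (ContinuousLinearMap.le_opNorm _ _).trans ?_
    have h5 := (hT' p hp).le
    calc ‖aeval T' p - aeval T p‖ * ‖f‖
        ≤ δ / (2 * ((M : ℝ) + 1)) * ((M : ℝ) + 1) :=
          mul_le_mul h5 hf (norm_nonneg _) (by positivity)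
      _ = δ / 2 := by field_simp
  have h6 : aeval T' p f - g = (aeval T' p - aeval T p) f + (aeval T p f - g) := by
    simp
  have h7 := norm_add_le ((aeval T' p - aeval T p) f) (aeval T p f - g)
  rw [← h6] at h7
  linarith

theorem aeval_eq_of (T : H →L[ℂ] H) (p : ℂ[X]) (hp : p.coeff 0 = 0) (f x : H) (h : T f = T x) :
    aeval T p f = aeval T p x := by
  obtain ⟨q, rfl⟩ := X_dvd_iff.2 hp
  rw [mul_comm X q]
  simp only [map_mul, aeval_X]
  show aeval T q (T f) = aeval T q (T x)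
  rw [h]

theorem mem_Gd (v : ℕ → H) (hv : ∀ i j, i ≠ j → ⟪v i, v j⟫_ℂ = 0) (d : ℕ)
    (hv0 : ∀ i, i < d → v i ≠ 0) (A : ℕ → ℕ → ℂ)
    (hA : ∀ i j, ¬ i < j → A i j = 0) (hA' : ∀ i, i + 1 < d → A i (i + 1) ≠ 0)
    (u g : H) (k l m : ℕ) (hlm : l ≤ m) (hm : m ≤ d)
    (hu : u = ∑ i ∈ Finset.Ico l m, v i) (hkl : k ≤ l)
    (hg : g ∈ Submodule.span ℂ {x | ∃ i < k, x = v i}) (M : ℕ) : opM v d A ∈ Gd u g M := by
  classical
  have hM : (0 : ℝ) < (M : ℝ) + 1 := by positivity
  set V : Submodule ℂ H := Submodule.span ℂ (v '' (Finset.range d : Set ℕ)) with hV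
  have hVf : FiniteDimensional ℂ V :=
    FiniteDimensional.span_of_finite ℂ ((Finset.range d).finite_toSet.image v)
  have hvV : ∀ i, i < d → v i ∈ V := fun i hi =>
    Submodule.subset_span ⟨i, by simpa using hi, rfl⟩
  have hproj : ∀ f : H, ∀ y ∈ V, ⟪y, f⟫_ℂ = ⟪y, (V.orthogonalProjection f : H)⟫_ℂ := by
    intro f y hy
    have h1 : ⟪y, f - (V.orthogonalProjection f : H)⟫_ℂ = 0 :=
      (Submodule.mem_orthogonal V _).1 (Submodule.sub_starProjection_mem_orthogonal (K := V) f) y hy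
    rw [inner_sub_right, sub_eq_zero] at h1
    exact h1
  have huV : u ∈ V := by
    rw [hu]
    refine Submodule.sum_mem _ fun i hi => hvV i ?_
    rw [Finset.mem_Ico] at hi
    omega
  set K : Set V := {x | ‖x‖ ≤ (M : ℝ) + 1 ∧ 1 / ((M : ℝ) + 1) ≤ ‖⟪u, (x : H)⟫_ℂ‖} with hK
  have hKc : IsCompact K := by
    refine Metric.isCompact_of_isClosed_isBounded ?_ ?_
    · refine IsClosed.inter ?_ ?_
      · exact isClosed_le continuous_norm continuous_const
      · exact isClosed_le continuous_const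
          ((Continuous.inner continuous_const continuous_subtype_val).norm)
    · refine (Metric.isBounded_closedBall (x := (0 : V)) (r := (M : ℝ) + 1)).subset ?_
      intro x hx
      rw [mem_closedBall_zero_iff]
      exact hx.1
  have hcov : K ⊆ ⋃ p : {p : ℂ[X] // p.coeff 0 = 0},
      {x : V | ‖aeval (opM v d A) p.1 (x : H) - g‖ < 1 / (2 * ((M : ℝ) + 1))} := by
    intro x hx
    have h1 : ⟪u, (x : H)⟫_ℂ ≠ 0 := by
      intro h
      have := hx.2
      rw [h, norm_zero] at this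
      have h2 : (0 : ℝ) < 1 / ((M : ℝ) + 1) := by positivity
      linarith
    obtain ⟨j, hj, hfj⟩ : ∃ j, (l ≤ j ∧ j < m) ∧ ⟪v j, (x : H)⟫_ℂ ≠ 0 := by
      by_contra hcon
      push Not at hcon
      refine h1 ?_
      rw [hu, sum_inner]
      refine Finset.sum_eq_zero fun i hi => ?_
      rw [Finset.mem_Ico] at hi
      exact hcon i hi
    have hg' : g ∈ Submodule.span ℂ {x | ∃ i < j, x = v i} := by
      refine Submodule.span_mono ?_ hg
      rintro _ ⟨i, hi, rfl⟩
      exact ⟨i, by omega, rfl⟩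
    obtain ⟨p, hp, hpx⟩ := exists_poly v hv d hv0 A hA hA' (x : H) j (by omega) hfj g hg'
    rw [Set.mem_iUnion]
    refine ⟨⟨p, hp⟩, ?_⟩
    show ‖aeval (opM v d A) p (x : H) - g‖ < 1 / (2 * ((M : ℝ) + 1))
    rw [hpx, sub_self, norm_zero]
    positivity
  have hop : ∀ p : {p : ℂ[X] // p.coeff 0 = 0},
      IsOpen {x : V | ‖aeval (opM v d A) p.1 (x : H) - g‖ < 1 / (2 * ((M : ℝ) + 1))} := by
    intro p
    refine isOpen_lt ?_ continuous_const
    exact (((aeval (opM v d A) p.1).continuous.comp continuous_subtype_val).sub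
      continuous_const).norm
  obtain ⟨t, ht⟩ := hKc.elim_finite_subcover _ hop hcov
  refine ⟨t.image Subtype.val, 1 / (2 * ((M : ℝ) + 1)), by positivity, ?_, ?_⟩
  · intro p hp
    rw [Finset.mem_image] at hp
    obtain ⟨q, _, rfl⟩ := hp
    exact q.2
  · intro f hf hf'
    have hx : V.orthogonalProjection f ∈ K := by
      refine ⟨?_, ?_⟩
      · exact (V.norm_orthogonalProjection_apply_le f).trans hf
      · rw [← hproj f u huV]
        exact hf'
    have h1 := ht hx
    rw [Set.mem_iUnion₂] at h1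
    obtain ⟨p, hp, h2⟩ := h1
    refine ⟨p.1, Finset.mem_image_of_mem _ hp, ?_⟩
    have h3 : opM v d A f = opM v d A (V.orthogonalProjection f : H) := by
      rw [opM_apply, opM_apply]
      refine Finset.sum_congr rfl fun i _ => ?_
      congr 1
      refine Finset.sum_congr rfl fun j hj => ?_
      rw [hproj f (v j) (hvV j (Finset.mem_range.1 hj))]
    rw [aeval_eq_of _ p.1 p.2 f _ h3]
    have h4 : ‖aeval (opM v d A) p.1 (V.orthogonalProjection f : H) - g‖ <
        1 / (2 * ((M : ℝ) + 1)) := h2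
    have h5 : 1 / (2 * ((M : ℝ) + 1)) + 1 / (2 * ((M : ℝ) + 1)) = 1 / ((M : ℝ) + 1) := by
      field_simp
      norm_num
    linarith

end Pool.Agent.H83R2.Nest
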