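import Pool.Agent.H83R2.Nest.Chain

/-!
# Every nonempty compact set of real numbers is order-isomorphic to the lattice of an operator
-/

set_option autoImplicit false

namespace Pool.Agent.H83R2.Nest

open scoped InnerProductSpace ENNReal
open MeasureTheory

theorem exists_ker (F : Set ℝ) (hF : IsCompact F) (hne : F.Nonempty) :
    ∃ (H : Type) (_ : NormedAddCommGroup H) (_ : InnerProductSpace ℂ H) (_ : CompleteSpace H)
      (_ : TopologicalSpace.SeparableSpace H) (m : F) (φ : F → H), Ker F m φ := by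
  classical
  obtain ⟨m0, hm0, hmin⟩ := hF.exists_isLeast hne
  let L : Type := Lp ℂ 2 (volume : Measure ℝ)
  have hfin : ∀ t : ℝ, (volume : Measure ℝ) (Set.Ioc m0 t) ≠ ⊤ := fun t => measure_Ioc_lt_top.ne
  let ψ : F → Lp ℂ 2 (volume : Measure ℝ) := fun t =>
    indicatorConstLp 2 (measurableSet_Ioc (a := m0) (b := (t : ℝ))) (hfin t) (1 : ℂ)
  have hψ : ∀ s t : F, ⟪ψ s, ψ t⟫_ℂ = ((min (s : ℝ) t - m0 : ℝ) : ℂ) := by
    intro s t
    have h1 := L2.inner_indicatorConstLp_one_indicatorConstLp_one (𝕜 := ℂ)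
      (measurableSet_Ioc (a := m0) (b := (s : ℝ))) (measurableSet_Ioc (a := m0) (b := (t : ℝ)))
      (hfin s) (hfin t)
    refine h1.trans ?_
    rw [Set.Ioc_inter_Ioc, sup_idem]
    rw [Real.volume_real_Ioc_of_le (le_min (hmin s.2) (hmin t.2))]
    rfl
  set K : Submodule ℂ (Lp ℂ 2 (volume : Measure ℝ)) :=
    (Submodule.span ℂ (Set.range ψ)).topologicalClosure with hK
  have hψK : ∀ t, ψ t ∈ K := fun t =>
    Submodule.le_topologicalClosure _ (Submodule.subset_span ⟨t, rfl⟩)
  have hKc : CompleteSpace K := (Submodule.isClosed_topologicalClosure _).completeSpace_coe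
  have hfact : Fact ((2 : ℝ≥0∞) ≠ ⊤) := ⟨by norm_num⟩
  have hsep : TopologicalSpace.SeparableSpace K := inferInstance
  refine ⟨K, inferInstance, inferInstance, hKc, hsep, ⟨m0, hm0⟩, fun t => ⟨ψ t, hψK t⟩, ?_⟩
  refine ⟨fun t => hmin t.2, fun s t => ?_, ?_⟩
  · exact hψ s t
  · rw [← Submodule.dense_iff_topologicalClosure_eq_top]
    intro x
    rw [Metric.mem_closure_iff]
    intro ε hε
    have hx : (x : Lp ℂ 2 (volume : Measure ℝ)) ∈
        closure ((Submodule.span ℂ (Set.range ψ) : Submodule ℂ _) : Set _) := x.2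
    obtain ⟨y, hy, hxy⟩ := Metric.mem_closure_iff.1 hx ε hε
    have h1 : Submodule.span ℂ (Set.range ψ) =
        (Submodule.span ℂ (Set.range fun t => (⟨ψ t, hψK t⟩ : K))).map K.subtype := by
      rw [Submodule.map_span, ← Set.range_comp]
      rfl
    rw [h1] at hy
    obtain ⟨z, hz, hzy⟩ := hy
    refine ⟨z, hz, ?_⟩
    have h2 : dist x z = dist (x : Lp ℂ 2 (volume : Measure ℝ)) y := by
      rw [← hzy]
      rfl
    rw [h2]
    exact hxy

/-- Every nonempty compact set of real numbers is order-isomorphic to the lattice of closed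
invariant subspaces of a bounded operator on a separable Hilbert space. -/
theorem exists_operator (F : Set ℝ) (hF : IsCompact F) (hne : F.Nonempty) :
    ∃ (H : Type) (_ : NormedAddCommGroup H) (_ : InnerProductSpace ℂ H) (_ : CompleteSpace H)
      (_ : TopologicalSpace.SeparableSpace H) (T : H →L[ℂ] H),
      Nonempty (↥F ≃o {M : Submodule ℂ H // IsClosed (M : Set H) ∧ ∀ x ∈ M, T x ∈ M}) := by
  obtain ⟨H, i1, i2, i3, i4, m, φ, h⟩ := exists_ker F hF hne
  obtain ⟨T, hT⟩ := h.exists_operator hF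
  exact ⟨H, i1, i2, i3, i4, T, hT⟩

end Pool.Agent.H83R2.Nest
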