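import Mathlib

/-!
# Single Jordan blocks with respect to an orthogonal family

`opM v d A = ∑ i, j < d, A i j • v i ⊗ v j`. If `A` is strictly upper triangular with nonzero entries
next to the diagonal, then every vector `f` with `⟪v j, f⟫ ≠ 0` generates `v i` for all `i < j`.
-/

set_option autoImplicit false

namespace Pool.Agent.H83R2.Nest

open scoped InnerProductSpace
open Polynomial

variable {H : Type*} [NormedAddCommGroup H] [InnerProductSpace ℂ H]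

/-- The rank one operator `f ↦ ⟪y, f⟫ x`. -/
noncomputable def rk (x y : H) : H →L[ℂ] H := (innerSL ℂ y).smulRight x

theorem rk_apply (x y f : H) : rk x y f = ⟪y, f⟫_ℂ • x := by
  simp [rk]

/-- The operator with matrix `A`. -/
noncomputable def opM (v : ℕ → H) (d : ℕ) (A : ℕ → ℕ → ℂ) : H →L[ℂ] H :=
  ∑ i ∈ Finset.range d, ∑ j ∈ Finset.range d, A i j • rk (v i) (v j)

theorem opM_apply (v : ℕ → H) (d : ℕ) (A : ℕ → ℕ → ℂ) (f : H) :
    opM v d A f = ∑ i ∈ Finset.range d, (∑ j ∈ Finset.range d, A i j * ⟪v j, f⟫_ℂ) • v i := by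
  simp only [opM, ContinuousLinearMap.sum_apply, ContinuousLinearMap.smul_apply, rk_apply,
    Finset.sum_smul, smul_smul]

theorem opM_step (v : ℕ → H) (d : ℕ) (A : ℕ → ℕ → ℂ) (hA : ∀ i j, ¬ i < j → A i j = 0)
    (hA' : ∀ i, i + 1 < d → A i (i + 1) ≠ 0) (f : H) (n : ℕ) (hn : n + 1 < d)
    (hf : ∀ j, n + 1 < j → j < d → ⟪v j, f⟫_ℂ = 0) (hf' : ⟪v (n + 1), f⟫_ℂ ≠ 0) :
    ∃ c : ℕ → ℂ, c n ≠ 0 ∧ opM v d A f = ∑ i ∈ Finset.range (n + 1), c i • v i := by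
  refine ⟨fun i => ∑ j ∈ Finset.range d, A i j * ⟪v j, f⟫_ℂ, ?_, ?_⟩
  · simp only
    rw [Finset.sum_eq_single (n + 1)]
    · exact mul_ne_zero (hA' n hn) hf'
    · intro j hj hj1
      rcases lt_or_gt_of_ne hj1 with h | h
      · rw [hA n j (by omega), zero_mul]
      · rw [hf j h (Finset.mem_range.1 hj), mul_zero]
    · intro h
      exact absurd (Finset.mem_range.2 hn) h
  · rw [opM_apply]
    symm
    refine Finset.sum_subset ?_ ?_
    · intro i hi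
      rw [Finset.mem_range] at hi ⊢
      omega
    · intro i hi hi'
      rw [Finset.mem_range] at hi hi'
      show (∑ j ∈ Finset.range d, A i j * ⟪v j, f⟫_ℂ) • v i = 0
      rw [Finset.sum_eq_zero, zero_smul]
      intro j hj
      rw [Finset.mem_range] at hj
      by_cases h : i < j
      · rw [hf j (by omega) hj, mul_zero]
      · rw [hA i j h, zero_mul]

theorem inner_comb (v : ℕ → H) (hv : ∀ i j, i ≠ j → ⟪v i, v j⟫_ℂ = 0) (c : ℕ → ℂ) (n j : ℕ) :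
    ⟪v j, ∑ i ∈ Finset.range n, c i • v i⟫_ℂ = if j < n then c j * ⟪v j, v j⟫_ℂ else 0 := by
  rw [inner_sum]
  simp only [inner_smul_right]
  split_ifs with h
  · rw [Finset.sum_eq_single j]
    · intro i _ hi
      rw [hv j i (Ne.symm hi), mul_zero]
    · intro h'
      exact absurd (Finset.mem_range.2 h) h'
  · refine Finset.sum_eq_zero fun i hi => ?_
    rw [Finset.mem_range] at hi
    rw [hv j i (by omega), mul_zero]

theorem comb_mem (v : ℕ → H) (hv : ∀ i j, i ≠ j → ⟪v i, v j⟫_ℂ = 0) (d : ℕ)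
    (hv0 : ∀ i, i < d → v i ≠ 0) (A : ℕ → ℕ → ℂ)
    (hA : ∀ i j, ¬ i < j → A i j = 0) (hA' : ∀ i, i + 1 < d → A i (i + 1) ≠ 0)
    (W : Submodule ℂ H) (hW : ∀ x ∈ W, opM v d A x ∈ W) :
    ∀ n, n < d → ∀ c : ℕ → ℂ, c n ≠ 0 → ∑ i ∈ Finset.range (n + 1), c i • v i ∈ W →
      ∀ i, i ≤ n → v i ∈ W := by
  intro n
  induction n with
  | zero =>
    intro _ c hc hcW i hi
    obtain rfl : i = 0 := by omega
    rw [zero_add, Finset.sum_range_one] at hcW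
    exact (Submodule.smul_mem_iff W hc).1 hcW
  | succ n ih =>
    intro hn c hc hcW i hi
    have h1 : ∀ j, n + 1 < j → j < d →
        ⟪v j, ∑ i ∈ Finset.range (n + 1 + 1), c i • v i⟫_ℂ = 0 := by
      intro j hj _
      rw [inner_comb v hv, if_neg (by omega)]
    have h2 : ⟪v (n + 1), ∑ i ∈ Finset.range (n + 1 + 1), c i • v i⟫_ℂ ≠ 0 := by
      rw [inner_comb v hv, if_pos (by omega)]
      exact mul_ne_zero hc (inner_self_ne_zero.2 (hv0 _ hn))
    obtain ⟨c', hc', h3⟩ := opM_step v d A hA hA' _ n hn h1 h2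
    have h4 : ∀ i, i ≤ n → v i ∈ W := by
      refine ih (by omega) c' hc' ?_
      rw [← h3]
      exact hW _ hcW
    rcases Nat.lt_or_ge i (n + 1) with h | h
    · exact h4 i (by omega)
    · obtain rfl : i = n + 1 := by omega
      rw [Finset.sum_range_succ] at hcW
      have h5 : ∑ i ∈ Finset.range (n + 1), c i • v i ∈ W :=
        Submodule.sum_mem _ fun i hi => W.smul_mem _ (h4 i (by
          rw [Finset.mem_range] at hi; omega))
      exact (Submodule.smul_mem_iff W hc).1 ((Submodule.add_mem_iff_right W h5).1 hcW)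

theorem gen_mem (v : ℕ → H) (hv : ∀ i j, i ≠ j → ⟪v i, v j⟫_ℂ = 0) (d : ℕ)
    (hv0 : ∀ i, i < d → v i ≠ 0) (A : ℕ → ℕ → ℂ)
    (hA : ∀ i j, ¬ i < j → A i j = 0) (hA' : ∀ i, i + 1 < d → A i (i + 1) ≠ 0)
    (W : Submodule ℂ H) (hW : ∀ x ∈ W, opM v d A x ∈ W) (f : H) (hf : opM v d A f ∈ W)
    (j : ℕ) (hj : j < d) (hfj : ⟪v j, f⟫_ℂ ≠ 0) (i : ℕ) (hi : i < j) : v i ∈ W := by
  classical
  -- the largest index
  obtain ⟨m, hm, hmax⟩ : ∃ m, (m < d ∧ ⟪v m, f⟫_ℂ ≠ 0) ∧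
      ∀ k, (k < d ∧ ⟪v k, f⟫_ℂ ≠ 0) → k ≤ m := by
    let S := (Finset.range d).filter fun k => ⟪v k, f⟫_ℂ ≠ 0
    have hS : S.Nonempty := ⟨j, by simp [S, hj, hfj]⟩
    refine ⟨S.max' hS, ?_, ?_⟩
    · have := S.max'_mem hS
      simpa [S] using this
    · intro k hk
      exact S.le_max' k (by simp [S, hk])
  have hjm : j ≤ m := hmax j ⟨hj, hfj⟩
  obtain ⟨n, rfl⟩ : ∃ n, m = n + 1 := ⟨m - 1, by omega⟩
  have h1 : ∀ k, n + 1 < k → k < d → ⟪v k, f⟫_ℂ = 0 := by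
    intro k hk hkd
    by_contra h
    have := hmax k ⟨hkd, h⟩
    omega
  obtain ⟨c, hc, h2⟩ := opM_step v d A hA hA' f n hm.1 h1 hm.2
  rw [h2] at hf
  exact comb_mem v hv d hv0 A hA hA' W hW n (by omega) c hc hf i (by omega)

/-- The vectors `p(T) f` with `p(0) = 0`. -/
def orb (T : H →L[ℂ] H) (f : H) : Submodule ℂ H where
  carrier := {x | ∃ p : ℂ[X], p.coeff 0 = 0 ∧ aeval T p f = x}
  add_mem' := by
    rintro _ _ ⟨p, hp, rfl⟩ ⟨q, hq, rfl⟩
    exact ⟨p + q, by simp [hp, hq], by simp⟩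
  zero_mem' := ⟨0, by simp, by simp⟩
  smul_mem' := by
    rintro c _ ⟨p, hp, rfl⟩
    exact ⟨c • p, by simp [hp], by simp⟩

theorem exists_poly (v : ℕ → H) (hv : ∀ i j, i ≠ j → ⟪v i, v j⟫_ℂ = 0) (d : ℕ)
    (hv0 : ∀ i, i < d → v i ≠ 0) (A : ℕ → ℕ → ℂ)
    (hA : ∀ i j, ¬ i < j → A i j = 0) (hA' : ∀ i, i + 1 < d → A i (i + 1) ≠ 0)
    (f : H) (j : ℕ) (hj : j < d) (hfj : ⟪v j, f⟫_ℂ ≠ 0) (g : H)
    (hg : g ∈ Submodule.span ℂ {x | ∃ i < j, x = v i}) :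
    ∃ p : ℂ[X], p.coeff 0 = 0 ∧ aeval (opM v d A) p f = g := by
  have h1 : Submodule.span ℂ {x | ∃ i < j, x = v i} ≤ orb (opM v d A) f := by
    rw [Submodule.span_le]
    rintro _ ⟨i, hi, rfl⟩
    refine gen_mem v hv d hv0 A hA hA' (orb (opM v d A) f) ?_ f ?_ j hj hfj i hi
    · rintro _ ⟨p, hp, rfl⟩
      refine ⟨X * p, by simp, by simp⟩
    · exact ⟨X, by simp, by simp⟩
  exact h1 hg

end Pool.Agent.H83R2.Nest
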