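import Pool.Agent.H83R2.Nest.Baire

/-!
# The rational-indexed maximal nest
-/

set_option autoImplicit false

namespace Pool.Agent.H83R2.Nest

open scoped InnerProductSpace ENNReal

/-- The space `ℓ²(ℚ)`. -/
abbrev LQ : Type := lp (fun _ : ℚ => ℂ) 2

theorem le_true (r q : ℚ) : toLex (r, true) ≤ toLex (q, true) ↔ r ≤ q := by
  rw [Prod.Lex.toLex_le_toLex]
  simp only [le_refl, and_true]
  exact le_iff_lt_or_eq.symm

theorem le_false (r q : ℚ) : toLex (r, true) ≤ toLex (q, false) ↔ r < q := by
  rw [Prod.Lex.toLex_le_toLex]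
  simp

/-- A positive square summable weight. -/
noncomputable def xi (q : ℚ) : ℂ := ((1 / 2 : ℝ) ^ (Encodable.encode q) : ℝ)

theorem xi_ne (q : ℚ) : xi q ≠ 0 := by
  rw [xi]
  exact_mod_cast (by positivity : (0 : ℝ) < (1 / 2 : ℝ) ^ (Encodable.encode q)).ne'

theorem norm_xi (q : ℚ) : ‖xi q‖ = (1 / 2 : ℝ) ^ (Encodable.encode q) := by
  rw [xi, Complex.norm_real, Real.norm_of_nonneg (by positivity)]

open Classical in
theorem memlp_xi (A : Set ℚ) : Memℓp (fun q : ℚ => if q ∈ A then xi q else 0) 2 := by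
  refine memℓp_gen ?_
  have h1 : Summable fun q : ℚ => (1 / 2 : ℝ) ^ (Encodable.encode q) :=
    summable_geometric_two.comp_injective Encodable.encode_injective
  refine Summable.of_nonneg_of_le (fun q => by positivity) (fun q => ?_) h1
  have h2 : ‖(if q ∈ A then xi q else 0 : ℂ)‖ ≤ (1 / 2 : ℝ) ^ (Encodable.encode q) := by
    split_ifs
    · rw [norm_xi]
    · rw [norm_zero]
      positivity
  have h3 : (1 / 2 : ℝ) ^ (Encodable.encode q) ≤ 1 := pow_le_one₀ (by norm_num) (by norm_num)
  have h4 : ((2 : ℝ≥0∞).toReal) = ((2 : ℕ) : ℝ) := by simp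
  rw [h4, Real.rpow_natCast]
  calc ‖(if q ∈ A then xi q else 0 : ℂ)‖ ^ 2
      ≤ ((1 / 2 : ℝ) ^ (Encodable.encode q)) ^ 2 :=
        pow_le_pow_left₀ (norm_nonneg _) h2 2
    _ ≤ (1 / 2 : ℝ) ^ (Encodable.encode q) := by
        have h5 : (0 : ℝ) ≤ (1 / 2 : ℝ) ^ (Encodable.encode q) := by positivity
        nlinarith

open Classical in
/-- The cyclic vector restricted to `A`. -/
noncomputable def xiA (A : Set ℚ) : LQ := ⟨fun q => if q ∈ A then xi q else 0, memlp_xi A⟩

open Classical in
theorem xiA_apply (A : Set ℚ) (q : ℚ) : xiA A q = if q ∈ A then xi q else 0 := rfl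

/-- The increasing function with orthogonal increments. -/
noncomputable def phi (c : ℚ ×ₗ Bool) : LQ := xiA {r | toLex (r, true) ≤ c}

theorem phi_sub_in (a b : ℚ ×ₗ Bool) (q : ℚ) (h1 : ¬ toLex (q, true) ≤ a)
    (h2 : toLex (q, true) ≤ b) : (phi b - phi a) q = xi q := by
  rw [lp.coeFn_sub, Pi.sub_apply, phi, phi, xiA_apply, xiA_apply,
    if_pos (show q ∈ {r | toLex (r, true) ≤ b} from h2),
    if_neg (show q ∉ {r | toLex (r, true) ≤ a} from h1), sub_zero]

theorem phi_sub_out (a b : ℚ ×ₗ Bool) (hab : a ≤ b) (q : ℚ)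
    (h : toLex (q, true) ≤ b → toLex (q, true) ≤ a) : (phi b - phi a) q = 0 := by
  rw [lp.coeFn_sub, Pi.sub_apply, phi, phi, xiA_apply, xiA_apply]
  by_cases h1 : toLex (q, true) ≤ a
  · rw [if_pos (show q ∈ {r | toLex (r, true) ≤ b} from h1.trans hab),
      if_pos (show q ∈ {r | toLex (r, true) ≤ a} from h1), sub_self]
  · rw [if_neg (show q ∉ {r | toLex (r, true) ≤ b} from fun h2 => h1 (h h2)),
      if_neg (show q ∉ {r | toLex (r, true) ≤ a} from h1), sub_self]

theorem inner_zero_of (f g : LQ) (h : ∀ q, f q = 0 ∨ g q = 0) : ⟪f, g⟫_ℂ = 0 := by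
  rw [lp.inner_eq_tsum]
  have : ∀ q, ⟪f q, g q⟫_ℂ = 0 := by
    intro q
    rcases h q with h | h
    · rw [h, inner_zero_left]
    · rw [h, inner_zero_right]
  rw [tsum_congr this, tsum_zero]

theorem phi_orth (a b c d : ℚ ×ₗ Bool) (hab : a ≤ b) (hbc : b ≤ c) (hcd : c ≤ d) :
    ⟪phi b - phi a, phi d - phi c⟫_ℂ = 0 := by
  refine inner_zero_of _ _ fun q => ?_
  by_cases h : toLex (q, true) ≤ b
  · right
    exact phi_sub_out c d hcd q fun _ => h.trans hbc
  · left
    exact phi_sub_out a b hab q fun h' => absurd h' h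

theorem phi_ne (a b : ℚ ×ₗ Bool) (hab : a < b) : phi a ≠ phi b := by
  obtain ⟨r, h1, h2⟩ : ∃ r : ℚ, ¬ toLex (r, true) ≤ a ∧ toLex (r, true) ≤ b := by
    obtain ⟨⟨q, x⟩, rfl⟩ := toLex.surjective a
    obtain ⟨⟨q', y⟩, rfl⟩ := toLex.surjective b
    rw [Prod.Lex.toLex_lt_toLex] at hab
    rcases hab with h | ⟨h, h'⟩
    · simp only at h
      obtain ⟨r, hr1, hr2⟩ := exists_between h
      refine ⟨r, ?_, ?_⟩
      · cases x
        · rw [le_false]
          exact not_lt.2 hr1.le
        · rw [le_true]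
          exact not_le.2 hr1
      · cases y
        · rw [le_false]
          exact hr2
        · rw [le_true]
          exact hr2.le
    · simp only at h h'
      subst h
      cases x
      · cases y
        · exact absurd h' (lt_irrefl _)
        · exact ⟨q, by rw [le_false]; exact lt_irrefl _, by rw [le_true]⟩
      · cases y
        · exact absurd h' (by decide)
        · exact absurd h' (lt_irrefl _)
  intro heq
  have h3 := phi_sub_in a b r h1 h2
  rw [heq, sub_self, lp.coeFn_zero, Pi.zero_apply] at h3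
  exact xi_ne r h3.symm

/-- The functions that vanish outside `A`. -/
def NA (A : Set ℚ) : Submodule ℂ LQ where
  carrier := {f | ∀ q, q ∉ A → f q = 0}
  add_mem' := fun {f g} hf hg q hq => by
    rw [lp.coeFn_add, Pi.add_apply, hf q hq, hg q hq, add_zero]
  zero_mem' := fun q _ => by rw [lp.coeFn_zero, Pi.zero_apply]
  smul_mem' := fun c f hf q hq => by
    rw [lp.coeFn_smul, Pi.smul_apply, hf q hq, smul_zero]

theorem NA_closed (A : Set ℚ) : IsClosed (NA A : Set LQ) := by
  have h1 : (NA A : Set LQ) = ⋂ q ∈ Aᶜ, {f : LQ | f q = 0} := by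
    ext f
    simp only [Set.mem_iInter]
    rfl
  rw [h1]
  refine isClosed_biInter fun q _ => isClosed_eq ?_ continuous_const
  exact (lp.evalCLM ℂ (fun _ : ℚ => ℂ) (p := 2) q).continuous

theorem NA_le {A : Set ℚ} {M : Submodule ℂ LQ} (hM : IsClosed (M : Set LQ))
    (h : ∀ q ∈ A, lp.single 2 q (1 : ℂ) ∈ M) : NA A ≤ M := by
  intro f hf
  have hs : HasSum (fun q : ℚ => lp.single 2 q (f q)) f := lp.hasSum_single ENNReal.ofNat_ne_top f
  refine hM.mem_of_tendsto hs (Filter.Eventually.of_forall fun s => ?_)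
  refine Submodule.sum_mem _ fun q _ => ?_
  by_cases hq : q ∈ A
  · have h1 : lp.single (E := fun _ : ℚ => ℂ) 2 q (f q) = (f q) • lp.single 2 q (1 : ℂ) := by
      rw [← lp.single_smul, smul_eq_mul, mul_one]
    rw [h1]
    exact M.smul_mem _ (h q hq)
  · rw [hf q hq]
    simp

/-- There is an operator on `ℓ²(ℚ)` whose closed invariant subspaces are exactly the spaces of the
functions that vanish outside `A`, where `A` is an initial segment of `ℚ`. -/
theorem exists_rat : ∃ T : LQ →L[ℂ] LQ, ∀ M : Submodule ℂ LQ,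
    (IsClosed (M : Set LQ) ∧ ∀ x ∈ M, T x ∈ M) ↔
      ∃ A : Set ℚ, (∀ q ∈ A, ∀ r < q, r ∈ A) ∧ M = NA A := by
  have hcount : Countable (ℚ ×ₗ Bool) := inferInstanceAs (Countable (ℚ × Bool))
  obtain ⟨T, hT1, hT2⟩ := core phi phi_orth phi_ne
  refine ⟨T, fun M => ⟨?_, ?_⟩⟩
  · rintro ⟨hM, hTM⟩
    set A : Set ℚ := {q | ∃ f ∈ M, f q ≠ 0} with hA
    have hstep : ∀ q ∈ A, ∀ r < q, lp.single 2 r (1 : ℂ) ∈ M := by
      rintro q ⟨f, hf, hfq⟩ r hrq
      have hab : toLex (r, false) < toLex (r, true) := by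
        rw [Prod.Lex.toLex_lt_toLex]
        simp
      have hbc : toLex (r, true) ≤ toLex (q, false) := (le_false r q).2 hrq
      have hcd : toLex (q, false) < toLex (q, true) := by
        rw [Prod.Lex.toLex_lt_toLex]
        simp
      have hdiff : ∀ s : ℚ, phi (toLex (s, true)) - phi (toLex (s, false)) =
          (xi s) • lp.single 2 s (1 : ℂ) := by
        intro s
        ext t
        rw [lp.coeFn_smul, Pi.smul_apply]
        by_cases hts : t = s
        · subst hts
          rw [phi_sub_in _ _ _ (by rw [le_false]; exact lt_irrefl _) (by rw [le_true]),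
            lp.single_apply_self, smul_eq_mul, mul_one]
        · rw [lp.single_apply_ne _ _ _ hts, smul_zero]
          refine phi_sub_out _ _ ?_ _ fun h => ?_
          · exact ((Prod.Lex.toLex_lt_toLex).2 (by simp)).le
          · rw [le_true] at h
            rw [le_false]
            exact lt_of_le_of_ne h hts
      have hne : ⟪phi (toLex (q, true)) - phi (toLex (q, false)), f⟫_ℂ ≠ 0 := by
        rw [hdiff, inner_smul_left, lp.inner_single_left]
        refine mul_ne_zero ((map_ne_zero _).2 (xi_ne q)) ?_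
        simpa using hfq
      have h1 := hT2 M hM hTM f hf _ _ _ _ hab hbc hcd hne
      rw [hdiff] at h1
      exact (Submodule.smul_mem_iff M (xi_ne r)).1 h1
    have hlow : ∀ q ∈ A, ∀ r < q, r ∈ A := by
      intro q hq r hr
      exact ⟨_, hstep q hq r hr, by rw [lp.single_apply_self]; exact one_ne_zero⟩
    have hall : ∀ q ∈ A, lp.single 2 q (1 : ℂ) ∈ M := by
      intro q hq
      obtain ⟨f, hf, hfq⟩ := hq
      by_cases hmax : ∃ q' ∈ A, q < q'
      · obtain ⟨q', hq', hlt⟩ := hmax
        exact hstep q' hq' q hlt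
      · push Not at hmax
        have h1 : f - (f q) • lp.single 2 q (1 : ℂ) ∈ M := by
          refine NA_le (A := {r | r < q}) hM (fun r hr => hstep q ⟨f, hf, hfq⟩ r hr) ?_
          intro r hr
          rw [lp.coeFn_sub, Pi.sub_apply, lp.coeFn_smul, Pi.smul_apply]
          rcases eq_or_ne r q with h2 | h2
          · subst h2
            rw [lp.single_apply_self, smul_eq_mul, mul_one, sub_self]
          · rw [lp.single_apply_ne _ _ _ h2, smul_zero, sub_zero]
            by_contra h3
            have h4 : r ∈ A := ⟨f, hf, h3⟩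
            have h5 := hmax r h4
            exact hr (lt_of_le_of_ne h5 h2)
        have h2 : (f q) • lp.single 2 q (1 : ℂ) ∈ M := by
          have := M.sub_mem hf h1
          simpa using this
        exact (Submodule.smul_mem_iff M hfq).1 h2
    refine ⟨A, hlow, le_antisymm ?_ (NA_le hM hall)⟩
    intro f hf q hq
    by_contra h
    exact hq ⟨f, hf, h⟩
  · rintro ⟨A, hA, rfl⟩
    refine ⟨NA_closed A, hT1 (NA A) (NA_closed A) ?_⟩
    intro a b c d hab hbc hcd
    by_cases h : ∀ r, ¬ toLex (r, true) ≤ a → toLex (r, true) ≤ b → r ∈ A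
    · left
      intro q hq
      refine phi_sub_out a b hab.le q fun h1 => ?_
      by_contra h2
      exact hq (h q h2 h1)
    · right
      push Not at h
      obtain ⟨r0, _, hr1, hr2⟩ := h
      intro f hf
      refine inner_zero_of _ _ fun q => ?_
      by_cases h3 : toLex (q, true) ≤ c
      · left
        exact phi_sub_out c d hcd.le q fun _ => h3
      · right
        refine hf q fun hq => hr2 ?_
        have h4 : toLex (r0, true) < toLex (q, true) := (hr1.trans hbc).trans_lt (not_le.1 h3)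
        rw [Prod.Lex.toLex_lt_toLex] at h4
        rcases h4 with h5 | ⟨h5, _⟩
        · exact hA q hq r0 h5
        · simp only at h5
          rw [h5]
          exact hq

end Pool.Agent.H83R2.Nest
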